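import Pool.Agent.H55.CsfA

namespace Pool.Agent.Results.MP_1e4d5b_gt.AllLevels
open Pool.Agent.H55.Snf

theorem result (X : Type*) [TopologicalSpace X] [T35Space X]
    (M : Type*) [TopologicalSpace M] [TopologicalSpace.MetrizableSpace M] (f : M → X)
    (hf : Continuous f) (hc : IsClosedMap f) (hs : Function.Surjective f)
    (m : ℕ) (hm : 2 ≤ m) (h : LevelCsf X m) : ∀ n : ℕ, LevelCsf X n :=
  fun n => levels_csf (df_lasnev hf hc hs) hm h n

end Pool.Agent.Results.MP_1e4d5b_gt.AllLevels
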